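import Mathlib

set_option autoImplicit false
open Finset

namespace Pool.Agent.TH641.Irr

set_option linter.unusedSectionVars false

variable {α : Type*} [DecidableEq α]

/-- average of a function over the subsets of `E` -/
noncomputable def av (E : Finset α) (f : Finset α → ℝ) : ℝ :=
  (∑ H ∈ E.powerset, f H) / 2 ^ E.card

lemma two_pow_pos' (E : Finset α) : (0 : ℝ) < 2 ^ E.card := by positivity

lemma av_mono {E : Finset α} {f g : Finset α → ℝ} (h : ∀ H, H ⊆ E → f H ≤ g H) :
    av E f ≤ av E g := by
  unfold av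
  apply div_le_div_of_nonneg_right _ (two_pow_pos' E).le
  exact Finset.sum_le_sum (fun H hH => h H (Finset.mem_powerset.1 hH))

lemma av_congr {E : Finset α} {f g : Finset α → ℝ} (h : ∀ H, H ⊆ E → f H = g H) :
    av E f = av E g := by
  unfold av
  congr 1
  exact Finset.sum_congr rfl (fun H hH => h H (Finset.mem_powerset.1 hH))

lemma av_const (E : Finset α) (c : ℝ) : av E (fun _ => c) = c := by
  unfold av
  rw [Finset.sum_const, Finset.card_powerset, nsmul_eq_mul]
  push_cast
  field_simp

lemma av_add (E : Finset α) (f g : Finset α → ℝ) :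
    av E (fun H => f H + g H) = av E f + av E g := by
  unfold av
  rw [Finset.sum_add_distrib, add_div]

lemma av_sub (E : Finset α) (f g : Finset α → ℝ) :
    av E (fun H => f H - g H) = av E f - av E g := by
  unfold av
  rw [Finset.sum_sub_distrib, sub_div]

lemma av_mul_left (E : Finset α) (c : ℝ) (f : Finset α → ℝ) :
    av E (fun H => c * f H) = c * av E f := by
  unfold av
  rw [← Finset.mul_sum, mul_div_assoc]

lemma av_sum {ι : Type*} (E : Finset α) (s : Finset ι) (f : ι → Finset α → ℝ) :
    av E (fun H => ∑ i ∈ s, f i H) = ∑ i ∈ s, av E (f i) := by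
  unfold av
  rw [Finset.sum_comm, Finset.sum_div]

lemma av_nonneg {E : Finset α} {f : Finset α → ℝ} (h : ∀ H, H ⊆ E → 0 ≤ f H) :
    0 ≤ av E f := by
  have := av_mono (E := E) (f := fun _ => (0:ℝ)) (g := f) h
  rwa [av_const] at this

lemma av_le {E : Finset α} {f : Finset α → ℝ} {c : ℝ} (h : ∀ H, H ⊆ E → f H ≤ c) :
    av E f ≤ c := by
  have := av_mono (E := E) (f := f) (g := fun _ => c) h
  rwa [av_const] at this

lemma av_swap (E : Finset α) (f : Finset α → Finset α → ℝ) :
    av E (fun H => av E (fun H' => f H H')) = av E (fun H' => av E (fun H => f H H')) := by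
  unfold av
  rw [← Finset.sum_div, ← Finset.sum_div, Finset.sum_comm]

/-- resample the coordinates in `T` -/
def res (T H H' : Finset α) : Finset α := (H \ T) ∪ (H' ∩ T)

lemma mem_res {T H H' : Finset α} {e : α} :
    e ∈ res T H H' ↔ (e ∈ H ∧ e ∉ T) ∨ (e ∈ H' ∧ e ∈ T) := by
  simp [res]

lemma sum_res (T : Finset α) (E : Finset α) : ∀ f : Finset α → ℝ,
    ∑ H ∈ E.powerset, ∑ H' ∈ E.powerset, f (res T H H')
      = 2 ^ E.card * ∑ H ∈ E.powerset, f H := by
  induction E using Finset.induction_on with
  | empty => intro f; simp [res]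
  | insert a E ha ih =>
    intro f
    rw [Finset.card_insert_of_notMem ha, pow_succ]
    rw [Finset.sum_powerset_insert ha, Finset.sum_powerset_insert ha]
    simp_rw [Finset.sum_powerset_insert ha]
    rw [Finset.sum_add_distrib, Finset.sum_add_distrib]
    by_cases haT : a ∈ T
    · have h1 : ∀ H H' : Finset α, res T H (insert a H') = insert a (res T H H') := by
        intro H H'; ext e; simp only [mem_res, Finset.mem_insert]
        by_cases he : e = a
        · subst he; simp [haT]
        · simp [he]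
      have h2 : ∀ H H' : Finset α, res T (insert a H) H' = res T H H' := by
        intro H H'; ext e; simp only [mem_res, Finset.mem_insert]
        by_cases he : e = a
        · subst he; simp [haT]
        · simp [he]
      simp_rw [h2, h1]
      rw [ih f, ih (fun H => f (insert a H))]
      ring
    · have h1 : ∀ H H' : Finset α, res T H (insert a H') = res T H H' := by
        intro H H'; ext e; simp only [mem_res, Finset.mem_insert]
        by_cases he : e = a
        · subst he; simp [haT]
        · simp [he]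
      have h2 : ∀ H H' : Finset α, res T (insert a H) H' = insert a (res T H H') := by
        intro H H'; ext e; simp only [mem_res, Finset.mem_insert]
        by_cases he : e = a
        · subst he; simp [haT]
        · simp [he]
      simp_rw [h1, h2]
      rw [ih f, ih (fun H => f (insert a H))]
      ring

lemma av_res (T E : Finset α) (f : Finset α → ℝ) :
    av E (fun H => av E (fun H' => f (res T H H'))) = av E f := by
  unfold av
  rw [← Finset.sum_div, sum_res]
  field_simp

/-- the largest binomial probability -/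
noncomputable def bet (t : ℕ) : ℝ := (t.choose (t / 2) : ℝ) / 2 ^ t

lemma bet_nonneg (t : ℕ) : 0 ≤ bet t := by unfold bet; positivity

lemma av_card_eq (E T : Finset α) (hT : T ⊆ E) (x : ℕ) :
    av E (fun H => if (H ∩ T).card = x then (1:ℝ) else 0) ≤ bet T.card := by
  unfold av bet
  rw [Finset.sum_boole]
  have hcard : (E.powerset.filter (fun H => (H ∩ T).card = x)).card
      ≤ (T.powersetCard x ×ˢ (E \ T).powerset).card := by
    apply Finset.card_le_card_of_injOn (fun H => (H ∩ T, H \ T))
    · intro H hH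
      simp only [Finset.coe_filter, Finset.mem_powerset, Set.mem_setOf_eq] at hH
      simp only [Finset.coe_product, Set.mem_prod, Finset.mem_coe, Finset.mem_powersetCard,
        Finset.mem_powerset]
      refine ⟨⟨Finset.inter_subset_right, hH.2⟩, ?_⟩
      exact Finset.sdiff_subset_sdiff hH.1 (le_refl _)
    · intro H _ H' _ h
      simp only [Prod.mk.injEq] at h
      rw [← Finset.sdiff_union_inter H T, ← Finset.sdiff_union_inter H' T, h.1, h.2]
  rw [Finset.card_product, Finset.card_powersetCard, Finset.card_powerset,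
    Finset.card_sdiff_of_subset hT] at hcard
  have h2 : (T.card.choose x) ≤ T.card.choose (T.card / 2) := Nat.choose_le_middle _ _
  have h3 : ((E.powerset.filter (fun H => (H ∩ T).card = x)).card : ℝ)
      ≤ (T.card.choose (T.card / 2) : ℝ) * 2 ^ (E.card - T.card) := by
    calc ((E.powerset.filter (fun H => (H ∩ T).card = x)).card : ℝ)
        ≤ ((T.card.choose x * 2 ^ (E.card - T.card) : ℕ) : ℝ) := by exact_mod_cast hcard
      _ ≤ ((T.card.choose (T.card / 2) * 2 ^ (E.card - T.card) : ℕ) : ℝ) := by
          exact_mod_cast Nat.mul_le_mul_right _ h2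
      _ = _ := by push_cast; ring
  have hle : T.card ≤ E.card := Finset.card_le_card hT
  have hpow : (2:ℝ) ^ E.card = 2 ^ (E.card - T.card) * 2 ^ T.card := by
    rw [← pow_add]; congr 1; omega
  rw [div_le_div_iff₀ (by positivity) (by positivity), hpow]
  calc ((E.powerset.filter (fun H => (H ∩ T).card = x)).card : ℝ) * 2 ^ T.card
      ≤ ((T.card.choose (T.card / 2) : ℝ) * 2 ^ (E.card - T.card)) * 2 ^ T.card := by
        apply mul_le_mul_of_nonneg_right h3 (by positivity)
    _ = _ := by ring

lemma centralBinom_sq (n : ℕ) : (2 * n + 1) * (Nat.centralBinom n) ^ 2 ≤ 16 ^ n := by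
  induction n with
  | zero => simp
  | succ n ih =>
    have h := Nat.succ_mul_centralBinom_succ n
    -- (n+1) * cb (n+1) = 2 * (2n+1) * cb n
    have h2 : ((n+1) * Nat.centralBinom (n+1)) ^ 2 = (2 * (2*n+1) * Nat.centralBinom n) ^ 2 := by
      rw [h]
    have h3 : (n+1)^2 * ((2 * (n+1) + 1) * (Nat.centralBinom (n+1)) ^ 2)
        ≤ (n+1)^2 * 16 ^ (n+1) := by
      calc (n+1)^2 * ((2 * (n+1) + 1) * (Nat.centralBinom (n+1)) ^ 2)
          = (2 * (n+1) + 1) * ((n+1) * Nat.centralBinom (n+1)) ^ 2 := by ring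
        _ = (2 * (n+1) + 1) * (2 * (2*n+1) * Nat.centralBinom n) ^ 2 := by rw [h2]
        _ = 4 * (2*n+3) * (2*n+1) * ((2*n+1) * (Nat.centralBinom n) ^ 2) := by ring
        _ ≤ 4 * (2*n+3) * (2*n+1) * 16 ^ n := Nat.mul_le_mul_left _ ih
        _ ≤ (16 * (n+1)^2) * 16 ^ n := by
            apply Nat.mul_le_mul_right
            nlinarith
        _ = (n+1)^2 * 16 ^ (n+1) := by ring
    exact Nat.le_of_mul_le_mul_left h3 (by positivity)

lemma bet_sq (t : ℕ) : ((t:ℝ) + 1) * (bet t) ^ 2 ≤ 1 := by
  rcases Nat.even_or_odd' t with ⟨n, rfl | rfl⟩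
  · have h := centralBinom_sq n
    unfold bet
    have h1 : (2 * n) / 2 = n := by omega
    rw [h1]
    have h2 : ((2 * n).choose n : ℝ) = (Nat.centralBinom n : ℝ) := by
      rw [Nat.centralBinom_eq_two_mul_choose]
    rw [h2, div_pow]
    have h3 : ((2:ℝ) ^ (2 * n)) ^ 2 = 16 ^ n := by
      rw [← pow_mul, show 2 * n * 2 = 4 * n by ring, pow_mul]; norm_num
    rw [h3, ← mul_div_assoc, div_le_one (by positivity)]
    have h4 : (((2 * n + 1) * (Nat.centralBinom n) ^ 2 : ℕ) : ℝ) ≤ ((16 ^ n : ℕ) : ℝ) := by
      exact_mod_cast h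
    push_cast at h4 ⊢
    linarith
  · have h := centralBinom_sq (n + 1)
    unfold bet
    have h1 : (2 * n + 1) / 2 = n := by omega
    rw [h1]
    have hc : Nat.centralBinom (n+1) = 2 * (2 * n + 1).choose n := by
      rw [Nat.centralBinom_eq_two_mul_choose]
      have : 2 * (n+1) = (2 * n + 1) + 1 := by ring
      rw [this, Nat.choose_succ_succ]
      have h5 : (2 * n + 1).choose (n+1) = (2 * n + 1).choose n := by
        rw [← Nat.choose_symm_of_eq_add]; omega
      rw [h5]; ring
    rw [div_pow]
    have h3 : ((2:ℝ) ^ (2 * n + 1)) ^ 2 = 4 * 16 ^ n := by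
      rw [← pow_mul, show (2 * n + 1) * 2 = 4 * n + 2 by ring, pow_add, pow_mul]; norm_num; ring
    rw [h3, ← mul_div_assoc, div_le_one (by positivity)]
    have h4 : (((2 * (n+1) + 1) * (Nat.centralBinom (n+1)) ^ 2 : ℕ) : ℝ)
        ≤ ((16 ^ (n+1) : ℕ) : ℝ) := by
      exact_mod_cast h
    rw [hc] at h4
    push_cast at h4 ⊢
    have h6 : (0:ℝ) ≤ ((2 * n + 1).choose n : ℝ) ^ 2 := by positivity
    have h7 : (16:ℝ) ^ (n + 1) = 16 * 16 ^ n := by ring
    rw [h7] at h4
    nlinarith

lemma bet_le_of {t : ℕ} {y : ℝ} (hy : 0 < y) (h : y ^ 2 ≤ (t:ℝ) + 1) : bet t ≤ 1 / y := by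
  have h1 := bet_sq t
  have h0 := bet_nonneg t
  rw [le_div_iff₀ hy]
  have h2 : (bet t * y) ^ 2 ≤ 1 := by
    calc (bet t * y) ^ 2 = y ^ 2 * (bet t) ^ 2 := by ring
      _ ≤ ((t:ℝ) + 1) * (bet t) ^ 2 := by
          apply mul_le_mul_of_nonneg_right h (by positivity)
      _ ≤ 1 := h1
  have h3 : 0 ≤ bet t * y := by positivity
  nlinarith

end Pool.Agent.TH641.Irr
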