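import Mathlib
import Pool.Agent.TH641.Irr.Avg

set_option autoImplicit false
set_option linter.unusedSectionVars false
open Finset

namespace Pool.Agent.TH641.Irr

variable {n : ℕ}

/-- degree of `v` in the hypergraph `H` -/
def deg (v : Fin n) (H : Finset (Finset (Fin n))) : ℕ := (H.filter (fun e => v ∈ e)).card

/-- all 5-sets -/
def EE (n : ℕ) : Finset (Finset (Fin n)) := (Finset.univ : Finset (Fin n)).powersetCard 5

lemma deg_res_mem {T : Finset (Finset (Fin n))} {k : Fin n} (hk : ∀ e ∈ T, k ∈ e)
    (H H' : Finset (Finset (Fin n))) :
    deg k (res T H H') = deg k (H \ T) + (H' ∩ T).card := by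
  unfold deg res
  rw [Finset.filter_union, Finset.card_union_of_disjoint]
  · congr 2
    apply Finset.filter_true_of_mem
    intro e he
    exact hk e (Finset.mem_inter.1 he).2
  · apply Finset.disjoint_filter_filter
    rw [Finset.disjoint_left]
    intro e he he'
    exact (Finset.mem_sdiff.1 he).2 (Finset.mem_inter.1 he').2

lemma deg_res_notMem {T : Finset (Finset (Fin n))} {i : Fin n} (hi : ∀ e ∈ T, i ∉ e)
    (H H' : Finset (Finset (Fin n))) :
    deg i (res T H H') = deg i H := by
  unfold deg
  congr 1
  ext e
  simp only [Finset.mem_filter, mem_res]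
  constructor
  · rintro ⟨h | h, hie⟩
    · exact ⟨h.1, hie⟩
    · exact absurd hie (hi e h.2)
  · rintro ⟨h, hie⟩
    exact ⟨Or.inl ⟨h, fun hT => hi e hT hie⟩, hie⟩

/-- indicator of equality of two degrees -/
noncomputable def ind (i k : Fin n) (H : Finset (Finset (Fin n))) : ℝ :=
  if deg i H = deg k H then 1 else 0

lemma ind_nonneg (i k : Fin n) (H : Finset (Finset (Fin n))) : 0 ≤ ind i k H := by
  unfold ind; split_ifs <;> norm_num

lemma ac (E T : Finset (Finset (Fin n))) (hT : T ⊆ E) (k i : Fin n) (hk : ∀ e ∈ T, k ∈ e)
    (hi : ∀ e ∈ T, i ∉ e) (H : Finset (Finset (Fin n))) :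
    av E (fun H' => ind i k (res T H H')) ≤ bet T.card := by
  by_cases hle : deg k (H \ T) ≤ deg i H
  · refine le_trans (av_mono ?_) (av_card_eq E T hT (deg i H - deg k (H \ T)))
    intro H' _
    unfold ind
    rw [deg_res_mem hk, deg_res_notMem hi]
    by_cases h : deg i H = deg k (H \ T) + (H' ∩ T).card
    · rw [if_pos h, if_pos (by omega)]
    · rw [if_neg h]; split_ifs <;> norm_num
  · refine le_trans (av_le (c := 0) ?_) (bet_nonneg _)
    intro H' _
    unfold ind
    rw [deg_res_mem hk, deg_res_notMem hi, if_neg (by omega)]

/-- the edges consisting of `k` and four elements of `S` -/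
def star (k : Fin n) (S : Finset (Fin n)) : Finset (Finset (Fin n)) :=
  (S.powersetCard 4).image (insert k)

lemma star_sub {k : Fin n} {S : Finset (Fin n)} (hk : k ∉ S) : star k S ⊆ EE n := by
  intro e he
  unfold star at he
  rw [Finset.mem_image] at he
  obtain ⟨f, hf, rfl⟩ := he
  rw [Finset.mem_powersetCard] at hf
  unfold EE
  rw [Finset.mem_powersetCard]
  refine ⟨Finset.subset_univ _, ?_⟩
  rw [Finset.card_insert_of_notMem (fun h => hk (hf.1 h)), hf.2]

lemma mem_star_k {k : Fin n} {S : Finset (Fin n)} : ∀ e ∈ star k S, k ∈ e := by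
  intro e he
  unfold star at he
  rw [Finset.mem_image] at he
  obtain ⟨f, hf, rfl⟩ := he
  exact Finset.mem_insert_self _ _

lemma star_subset {k : Fin n} {S : Finset (Fin n)} : ∀ e ∈ star k S, e ⊆ insert k S := by
  intro e he
  unfold star at he
  rw [Finset.mem_image] at he
  obtain ⟨f, hf, rfl⟩ := he
  rw [Finset.mem_powersetCard] at hf
  exact Finset.insert_subset_insert _ hf.1

lemma notMem_star {k i : Fin n} {S : Finset (Fin n)} (h1 : i ≠ k) (h2 : i ∉ S) :
    ∀ e ∈ star k S, i ∉ e := by
  intro e he hie
  have := star_subset e he hie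
  rw [Finset.mem_insert] at this
  rcases this with h | h
  · exact h1 h
  · exact h2 h

lemma star_card {k : Fin n} {S : Finset (Fin n)} (hk : k ∉ S) :
    (star k S).card = S.card.choose 4 := by
  unfold star
  rw [Finset.card_image_of_injOn, Finset.card_powersetCard]
  intro f hf g hg h
  simp only [Finset.mem_coe, Finset.mem_powersetCard] at hf hg
  have h1 : k ∉ f := fun h => hk (hf.1 h)
  have h2 : k ∉ g := fun h => hk (hg.1 h)
  have : (insert k f).erase k = (insert k g).erase k := congrArg (fun x => x.erase k) h
  rwa [Finset.erase_insert h1, Finset.erase_insert h2] at this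

lemma ac_star (k i : Fin n) (S : Finset (Fin n)) (hk : k ∉ S) (h1 : i ≠ k) (h2 : i ∉ S)
    (H : Finset (Finset (Fin n))) :
    av (EE n) (fun H' => ind i k (res (star k S) H H')) ≤ bet (S.card.choose 4) := by
  rw [← star_card hk]
  exact ac _ _ (star_sub hk) k i mem_star_k (notMem_star h1 h2) H

lemma deg_res_star {k v : Fin n} {S : Finset (Fin n)} (h1 : v ≠ k) (h2 : v ∉ S)
    (H H' : Finset (Finset (Fin n))) : deg v (res (star k S) H H') = deg v H :=
  deg_res_notMem (notMem_star h1 h2) H H'

/-- `res` commutes for disjoint coordinate sets -/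
lemma res_comm {α : Type*} [DecidableEq α] {T I : Finset α} (h : Disjoint T I)
    (H H' H'' : Finset α) :
    res I (res T H H'') H' = res T (res I H H') H'' := by
  ext e
  simp only [mem_res]
  have := @Finset.disjoint_left _ T I
  have h1 : e ∈ T → e ∉ I := fun a => (this.1 h) a
  tauto

lemma res_inner {α : Type*} [DecidableEq α] {T I : Finset α} (h : T ⊆ I)
    (H H' H'' : Finset α) :
    res I H (res T H' H'') = res T (res I H H') H'' := by
  ext e
  simp only [mem_res]
  have h1 : e ∈ T → e ∈ I := fun a => h a
  tauto

/-! ### first part -/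

/-- the first `k` vertices have distinct degrees -/
noncomputable def A (k : ℕ) (H : Finset (Finset (Fin n))) : ℝ :=
  by classical exact if ∀ i j : Fin n, i.val < k → j.val < k → deg i H = deg j H → i = j then 1 else 0

lemma A_nonneg (k : ℕ) (H : Finset (Finset (Fin n))) : 0 ≤ A k H := by
  unfold A; split_ifs <;> norm_num

lemma A_le_one (k : ℕ) (H : Finset (Finset (Fin n))) : A k H ≤ 1 := by
  unfold A; split_ifs <;> norm_num

lemma A_congr {k : ℕ} {H H' : Finset (Finset (Fin n))}
    (h : ∀ i : Fin n, i.val < k → deg i H = deg i H') : A k H = A k H' := by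
  unfold A
  congr 1
  apply propext
  constructor
  · intro h1 i j hi hj he
    exact h1 i j hi hj (by rw [h i hi, h j hj, he])
  · intro h1 i j hi hj he
    exact h1 i j hi hj (by rw [← h i hi, ← h j hj, he])

lemma A_zero (H : Finset (Finset (Fin n))) : A 0 H = 1 := by
  unfold A
  rw [if_pos]
  intro i j hi
  omega

/-- vertices above `k` -/
def above (k : Fin n) : Finset (Fin n) := Finset.univ.filter (fun j => k < j)

lemma above_card (k : Fin n) : (above k).card = n - 1 - k.val := by
  unfold above
  have : (Finset.univ.filter (fun j => k < j)) = Finset.Ioi k := by ext; simp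
  rw [this, Fin.card_Ioi]

lemma A_step (k : ℕ) (hk : k < n) :
    (1 - k * bet ((n - 1 - k).choose 4)) * av (EE n) (A k) ≤ av (EE n) (A (k + 1)) := by
  set v : Fin n := ⟨k, hk⟩ with hv
  set T := star v (above v) with hT
  have hvT : v ∉ above v := by simp [above]
  have key : ∀ H, A k H - ∑ i ∈ Finset.univ.filter (fun i : Fin n => i < v), A k H * ind i v H
      ≤ A (k + 1) H := by
    intro H
    by_cases h1 : ∀ i j : Fin n, i.val < k → j.val < k → deg i H = deg j H → i = j
    · have hA : A k H = 1 := by unfold A; rw [if_pos h1]
      rw [hA]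
      by_cases h2 : ∃ i : Fin n, i < v ∧ deg i H = deg v H
      · obtain ⟨i, hi, he⟩ := h2
        have : (1:ℝ) ≤ ∑ i ∈ Finset.univ.filter (fun i : Fin n => i < v), 1 * ind i v H := by
          calc (1:ℝ) = 1 * ind i v H := by unfold ind; rw [if_pos he]; ring
            _ ≤ _ := by
              apply Finset.single_le_sum (f := fun i => 1 * ind i v H)
              · intro j _
                have := ind_nonneg j v H
                linarith
              · simp [hi]
        have := A_nonneg (k+1) H
        linarith
      · push Not at h2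
        have hA1 : A (k + 1) H = 1 := by
          unfold A
          rw [if_pos]
          intro i j hi hj he
          rcases Nat.lt_succ_iff_lt_or_eq.1 hi with hi | hi
          · rcases Nat.lt_succ_iff_lt_or_eq.1 hj with hj | hj
            · exact h1 i j hi hj he
            · have hjv : j = v := Fin.ext hj
              subst hjv
              exact absurd he (h2 i hi)
          · have hiv : i = v := Fin.ext hi
            rcases Nat.lt_succ_iff_lt_or_eq.1 hj with hj | hj
            · subst hiv
              exact absurd he.symm (h2 j hj)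
            · exact Fin.ext (by rw [hi, hj])
        rw [hA1]
        have : (0:ℝ) ≤ ∑ i ∈ Finset.univ.filter (fun i : Fin n => i < v), 1 * ind i v H := by
          apply Finset.sum_nonneg
          intro j _
          have := ind_nonneg j v H
          linarith
        linarith
    · have hA : A k H = 0 := by unfold A; rw [if_neg h1]
      rw [hA]
      have := A_nonneg (k+1) H
      simp only [zero_mul, Finset.sum_const_zero, sub_zero]
      exact this
  have hterm : ∀ i : Fin n, i < v → av (EE n) (fun H => A k H * ind i v H)
      ≤ bet ((n - 1 - k).choose 4) * av (EE n) (A k) := by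
    intro i hi
    rw [← av_res T (EE n) (fun H => A k H * ind i v H)]
    rw [← av_mul_left]
    apply av_mono
    intro H _
    have h1 : ∀ H', A k (res T H H') = A k H := by
      intro H'
      apply A_congr
      intro j hj
      apply deg_res_star
      · intro h; rw [h] at hj; simp [hv] at hj
      · simp only [above, Finset.mem_filter, Finset.mem_univ, true_and, not_lt]
        rw [Fin.le_def]; exact hj.le
    have h2 : av (EE n) (fun H' => A k (res T H H') * ind i v (res T H H'))
        = A k H * av (EE n) (fun H' => ind i v (res T H H')) := by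
      rw [← av_mul_left]
      apply av_congr
      intro H' _
      rw [h1]
    rw [h2, mul_comm]
    apply mul_le_mul_of_nonneg_right _ (A_nonneg k H)
    have h3 := ac_star v i (above v) hvT (ne_of_lt hi)
      (by simp only [above, Finset.mem_filter, Finset.mem_univ, true_and, not_lt]; exact hi.le) H
    rw [above_card] at h3
    exact h3
  calc (1 - k * bet ((n - 1 - k).choose 4)) * av (EE n) (A k)
      = av (EE n) (A k) - ∑ i ∈ Finset.univ.filter (fun i : Fin n => i < v),
          bet ((n - 1 - k).choose 4) * av (EE n) (A k) := by
        rw [Finset.sum_const, nsmul_eq_mul]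
        have : (Finset.univ.filter (fun i : Fin n => i < v)).card = k := by
          have : (Finset.univ.filter (fun i : Fin n => i < v)) = Finset.Iio v := by ext; simp
          rw [this, Fin.card_Iio]
        rw [this]; ring
    _ ≤ av (EE n) (A k) - ∑ i ∈ Finset.univ.filter (fun i : Fin n => i < v),
          av (EE n) (fun H => A k H * ind i v H) := by
        apply sub_le_sub_left
        apply Finset.sum_le_sum
        intro i hi
        exact hterm i (by simpa using hi)
    _ = av (EE n) (fun H => A k H
          - ∑ i ∈ Finset.univ.filter (fun i : Fin n => i < v), A k H * ind i v H) := by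
        rw [av_sub (EE n) (A k), av_sum]
    _ ≤ av (EE n) (A (k + 1)) := av_mono (fun H _ => key H)

end Pool.Agent.TH641.Irr
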