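import Mathlib
import Pool.Agent.TH641.Irr.Graph

set_option autoImplicit false
set_option linter.unusedSectionVars false
open Finset

namespace Pool.Agent.TH641.Irr

variable {n : ℕ}

/-- edges inside the last part `{v : a ≤ v}` -/
def inner (n a : ℕ) : Finset (Finset (Fin n)) :=
  (EE n).filter (fun e => ∀ j ∈ e, a ≤ j.val)

/-- the conditional probability of `deg i = deg k` given the edges meeting the first part -/
noncomputable def z (a : ℕ) (i k : Fin n) (H : Finset (Finset (Fin n))) : ℝ :=
  av (EE n) (fun H' => ind i k (res (inner n a) H H'))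

lemma z_nonneg (a : ℕ) (i k : Fin n) (H : Finset (Finset (Fin n))) : 0 ≤ z a i k H :=
  av_nonneg (fun _ _ => ind_nonneg _ _ _)

/-- last part without `i`, `k` -/
def lastS (a : ℕ) (i k : Fin n) : Finset (Fin n) :=
  ((Finset.univ.filter (fun j : Fin n => a ≤ j.val)).erase i).erase k

lemma z_le (a : ℕ) (i k : Fin n) (hk : a ≤ k.val) (hik : i ≠ k) (H : Finset (Finset (Fin n))) :
    z a i k H ≤ bet ((lastS a i k).card.choose 4) := by
  unfold z
  set S := lastS a i k with hS
  have hkS : k ∉ S := by simp [hS, lastS]
  have hiS : i ∉ S := by simp [hS, lastS]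
  have hTI : star k S ⊆ inner n a := by
    intro e he
    unfold inner
    rw [Finset.mem_filter]
    refine ⟨star_sub hkS he, ?_⟩
    intro j hj
    have := star_subset e he hj
    rw [Finset.mem_insert] at this
    rcases this with h | h
    · rw [h]; exact hk
    · simp only [hS, lastS, Finset.mem_erase, Finset.mem_filter, Finset.mem_univ, true_and] at h
      exact h.2.2
  rw [← av_res (star k S) (EE n) (fun H' => ind i k (res (inner n a) H H'))]
  apply av_le
  intro H' _
  have : av (EE n) (fun H'' => ind i k (res (inner n a) H (res (star k S) H' H'')))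
      = av (EE n) (fun H'' => ind i k (res (star k S) (res (inner n a) H H') H'')) := by
    apply av_congr
    intro H'' _
    rw [res_inner hTI]
  rw [this]
  exact ac_star k i S hkS hik hiS _

/-- star with centre `k` in the last part and leaves in the first part avoids the inner edges -/
lemma disj_inner (a : ℕ) (k : Fin n) (S : Finset (Fin n)) (hS : ∀ j ∈ S, j.val < a)
    (hk : a ≤ k.val) : Disjoint (star k S) (inner n a) := by
  rw [Finset.disjoint_left]
  intro e he hI
  unfold star at he
  rw [Finset.mem_image] at he
  obtain ⟨f, hf, rfl⟩ := he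
  rw [Finset.mem_powersetCard] at hf
  have hne : f.Nonempty := by
    rw [← Finset.card_pos]; omega
  obtain ⟨j, hj⟩ := hne
  have h1 := hS j (hf.1 hj)
  unfold inner at hI
  have h2 := (Finset.mem_filter.1 hI).2 j (Finset.mem_insert_of_mem hj)
  omega

lemma z_resample (a : ℕ) (i k : Fin n) (S : Finset (Fin n)) (hS : ∀ j ∈ S, j.val < a)
    (hk : a ≤ k.val) (hik : i ≠ k) (hiS : i ∉ S) (H : Finset (Finset (Fin n))) :
    av (EE n) (fun H'' => z a i k (res (star k S) H H'')) ≤ bet (S.card.choose 4) := by
  unfold z
  rw [av_swap]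
  apply av_le
  intro H' _
  have hkS : k ∉ S := fun h => by have := hS k h; omega
  have : av (EE n) (fun H'' => ind i k (res (inner n a) (res (star k S) H H'') H'))
      = av (EE n) (fun H'' => ind i k (res (star k S) (res (inner n a) H H') H'')) := by
    apply av_congr
    intro H'' _
    rw [res_comm (disj_inner a k S hS hk)]
  rw [this]
  exact ac_star k i S hkS hik hiS _

lemma z_invariant (a : ℕ) (i k k' : Fin n) (S : Finset (Fin n)) (hS : ∀ j ∈ S, j.val < a)
    (hk' : a ≤ k'.val) (h1 : i ≠ k') (h2 : k ≠ k') (h3 : i ∉ S) (h4 : k ∉ S)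
    (H H'' : Finset (Finset (Fin n))) :
    z a i k (res (star k' S) H H'') = z a i k H := by
  unfold z
  apply av_congr
  intro H' _
  unfold ind
  rw [res_comm (disj_inner a k' S hS hk'), deg_res_star h1 h3, deg_res_star h2 h4]

lemma prod_bound {σ : Type*} [DecidableEq σ] (E : Finset (Finset (Fin n))) (J : Finset σ)
    (g : σ → Finset (Finset (Fin n)) → ℝ) (T : σ → Finset (Finset (Fin n))) (B : ℝ) (hB : 0 ≤ B)
    (hg : ∀ s H, 0 ≤ g s H)
    (h1 : ∀ s ∈ J, ∀ s' ∈ J, s ≠ s' → ∀ H H', g s (res (T s') H H') = g s H)
    (h2 : ∀ s ∈ J, ∀ H, av E (fun H' => g s (res (T s) H H')) ≤ B) :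
    av E (fun H => ∏ s ∈ J, g s H) ≤ B ^ J.card := by
  induction J using Finset.induction_on with
  | empty => simp [av_const]
  | insert s J hs ih =>
    rw [Finset.card_insert_of_notMem hs, pow_succ]
    rw [← av_res (T s) E]
    have h3 : av E (fun H => av E (fun H' => ∏ t ∈ insert s J, g t (res (T s) H H')))
        ≤ av E (fun H => B * ∏ t ∈ J, g t H) := by
      apply av_mono
      intro H _
      have h4 : av E (fun H' => ∏ t ∈ insert s J, g t (res (T s) H H'))
          = av E (fun H' => (∏ t ∈ J, g t H) * g s (res (T s) H H')) := by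
        apply av_congr
        intro H' _
        rw [Finset.prod_insert hs, mul_comm]
        congr 1
        apply Finset.prod_congr rfl
        intro t ht
        apply h1 t (Finset.mem_insert_of_mem ht) s (Finset.mem_insert_self _ _)
        rintro rfl
        exact hs ht
      rw [h4, av_mul_left, mul_comm]
      apply mul_le_mul_of_nonneg_right _ (Finset.prod_nonneg (fun t _ => hg t H))
      exact h2 s (Finset.mem_insert_self _ _) H
    refine h3.trans ?_
    rw [av_mul_left, mul_comm]
    apply mul_le_mul_of_nonneg_right _ hB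
    apply ih
    · intro t ht t' ht' hne
      exact h1 t (Finset.mem_insert_of_mem ht) t' (Finset.mem_insert_of_mem ht') hne
    · intro t ht
      exact h2 t (Finset.mem_insert_of_mem ht)

/-- pairs `(i,k)` with `k` in the last part -/
def prs (n a : ℕ) : Finset (Fin n × Fin n) :=
  Finset.univ.filter (fun p => a ≤ p.2.val ∧ p.1 ≠ p.2)

/-- conditional expected number of coincidences involving the last part -/
noncomputable def Z (a : ℕ) (H : Finset (Finset (Fin n))) : ℝ :=
  ∑ p ∈ prs n a, z a p.1 p.2 H

lemma Z_nonneg (a : ℕ) (H : Finset (Finset (Fin n))) : 0 ≤ Z a H :=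
  Finset.sum_nonneg (fun _ _ => z_nonneg _ _ _ _)

def good {r : ℕ} (p : Fin r → Fin n × Fin n) : Prop :=
  ∀ s s', s ≠ s' → (p s).2 ≠ (p s').2 ∧ (p s).2 ≠ (p s').1

noncomputable instance {r : ℕ} : DecidablePred (good (n := n) (r := r)) :=
  fun _ => Classical.propDecidable _

/-- leaves for a tuple -/
def firstS {r : ℕ} (a : ℕ) (p : Fin r → Fin n × Fin n) : Finset (Fin n) :=
  (Finset.univ.filter (fun j : Fin n => j.val < a)) \ (Finset.univ.image (fun s => (p s).1))

lemma firstS_card {r : ℕ} (a : ℕ) (ha : a ≤ n) (p : Fin r → Fin n × Fin n) :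
    a - r ≤ (firstS a p).card := by
  unfold firstS
  have h1 := Finset.le_card_sdiff (Finset.univ.image (fun s => (p s).1))
    (Finset.univ.filter (fun j : Fin n => j.val < a))
  have h2 : (Finset.univ.image (fun s => (p s).1)).card ≤ r := by
    refine Finset.card_image_le.trans ?_
    simp
  have h3 : (Finset.univ.filter (fun j : Fin n => j.val < a)).card = a := by
    rw [Fin.card_filter_val_lt]
    exact min_eq_right ha
  omega

lemma good_bound {r : ℕ} (a : ℕ) (p : Fin r → Fin n × Fin n) (hp : ∀ s, p s ∈ prs n a)
    (hg : good p) :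
    av (EE n) (fun H => ∏ s, z a (p s).1 (p s).2 H)
      ≤ (bet ((firstS a p).card.choose 4)) ^ r := by
  have h := prod_bound (EE n) (Finset.univ : Finset (Fin r))
    (fun s H => z a (p s).1 (p s).2 H) (fun s => star (p s).2 (firstS a p))
    (bet ((firstS a p).card.choose 4)) (bet_nonneg _) (fun s H => z_nonneg _ _ _ _)
  simp only [Finset.card_univ, Fintype.card_fin] at h
  have hS : ∀ j ∈ firstS a p, j.val < a := by
    intro j hj
    unfold firstS at hj
    simp only [Finset.mem_sdiff, Finset.mem_filter, Finset.mem_univ, true_and] at hj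
    exact hj.1
  have hi : ∀ s, (p s).1 ∉ firstS a p := by
    intro s hs
    unfold firstS at hs
    simp only [Finset.mem_sdiff, Finset.mem_image, Finset.mem_univ, true_and] at hs
    exact hs.2 ⟨s, rfl⟩
  have hk : ∀ s, a ≤ (p s).2.val := by
    intro s
    have := hp s
    unfold prs at this
    simp only [Finset.mem_filter, Finset.mem_univ, true_and] at this
    exact this.1
  have hne : ∀ s, (p s).1 ≠ (p s).2 := by
    intro s
    have := hp s
    unfold prs at this
    simp only [Finset.mem_filter, Finset.mem_univ, true_and] at this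
    exact this.2
  apply h
  · intro s _ s' _ hss' H H'
    apply z_invariant a _ _ _ _ hS (hk s')
    · intro he
      exact (hg s' s (Ne.symm hss')).2 he.symm
    · exact (hg s s' hss').1
    · exact hi s
    · intro hmem
      have := hS _ hmem
      have := hk s
      omega
  · intro s _ H
    exact z_resample a _ _ _ hS (hk s) (hne s) (hi s) H

/-- counting functions one of whose values has its second coordinate determined by the others -/
lemma card_det {r : ℕ} (s : Fin r) (c : (Fin r → Fin n × Fin n) → Fin n)
    (hc : ∀ p q : Fin r → Fin n × Fin n, (∀ t, t ≠ s → p t = q t) → c p = c q) :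
    (Finset.univ.filter (fun p : Fin r → Fin n × Fin n => (p s).2 = c p)).card
      ≤ n * (n * n) ^ (r - 1) := by
  classical
  have h := Finset.card_le_card_of_injOn
    (s := Finset.univ.filter (fun p : Fin r → Fin n × Fin n => (p s).2 = c p))
    (t := (Finset.univ : Finset (Fin n × ({t : Fin r // t ≠ s} → Fin n × Fin n))))
    (fun p => ((p s).1, fun t => p t.1)) (fun _ _ => Finset.mem_coe.2 (Finset.mem_univ _)) ?_
  · refine h.trans ?_
    rw [Finset.card_univ, Fintype.card_prod, Fintype.card_fun, Fintype.card_fin,
      Fintype.card_prod, Fintype.card_fin]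
    have : Fintype.card {t : Fin r // t ≠ s} = r - 1 := by
      rw [Fintype.card_subtype_compl]
      simp
    rw [this]
  · intro p hp q hq he
    simp only [Finset.coe_filter, Finset.mem_univ, true_and] at hp hq
    simp only [Prod.mk.injEq] at he
    have h1 : ∀ t, t ≠ s → p t = q t := fun t ht => congrFun he.2 ⟨t, ht⟩
    funext t
    by_cases ht : t = s
    · subst ht
      have hp' : (p t).2 = c p := hp
      have hq' : (q t).2 = c q := hq
      apply Prod.ext he.1
      rw [hp', hq', hc p q h1]
    · exact h1 t ht

lemma card_bad {r : ℕ} :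
    ((Finset.univ : Finset (Fin r → Fin n × Fin n)).filter (fun p => ¬ good p)).card
      ≤ 2 * r ^ 2 * (n * (n * n) ^ (r - 1)) := by
  have hsub : (Finset.univ : Finset (Fin r → Fin n × Fin n)).filter (fun p => ¬ good p)
      ⊆ ((Finset.univ : Finset (Fin r × Fin r)).filter (fun x => x.1 ≠ x.2)).biUnion
          (fun x => (Finset.univ.filter (fun p : Fin r → Fin n × Fin n => (p x.1).2 = (p x.2).2))
            ∪ (Finset.univ.filter (fun p : Fin r → Fin n × Fin n => (p x.1).2 = (p x.2).1))) := by
    intro p hp
    have hp1 := (Finset.mem_filter.1 hp).2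
    unfold good at hp1
    push Not at hp1
    obtain ⟨s, s', hne, h⟩ := hp1
    simp only [Finset.mem_biUnion, Finset.mem_filter, Finset.mem_univ, true_and,
      Finset.mem_union]
    refine ⟨(s, s'), hne, ?_⟩
    by_cases h1 : (p s).2 = (p s').2
    · exact Or.inl h1
    · exact Or.inr (h h1)
  refine (Finset.card_le_card hsub).trans ?_
  refine Finset.card_biUnion_le.trans ?_
  have hb : ∀ x ∈ (Finset.univ : Finset (Fin r × Fin r)).filter (fun x => x.1 ≠ x.2),
      ((Finset.univ.filter (fun p : Fin r → Fin n × Fin n => (p x.1).2 = (p x.2).2))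
            ∪ (Finset.univ.filter (fun p : Fin r → Fin n × Fin n => (p x.1).2 = (p x.2).1))).card
        ≤ 2 * (n * (n * n) ^ (r - 1)) := by
    intro x hx
    simp only [Finset.mem_filter, Finset.mem_univ, true_and] at hx
    refine (Finset.card_union_le _ _).trans ?_
    rw [two_mul]
    apply Nat.add_le_add
    · exact card_det x.1 (fun p => (p x.2).2) (fun p q h => by rw [h x.2 (Ne.symm hx)])
    · exact card_det x.1 (fun p => (p x.2).1) (fun p q h => by rw [h x.2 (Ne.symm hx)])
  refine (Finset.sum_le_card_nsmul _ _ _ hb).trans ?_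
  rw [smul_eq_mul]
  calc _ ≤ (r * r) * (2 * (n * (n * n) ^ (r - 1))) := by
        apply Nat.mul_le_mul_right
        refine (Finset.card_filter_le _ _).trans ?_
        simp
    _ = _ := by ring

lemma moment_bound (a r : ℕ) (b1 b2 : ℝ) (hb1 : 0 ≤ b1) (hb2 : 0 ≤ b2)
    (h1 : ∀ p : Fin r → Fin n × Fin n, bet ((firstS a p).card.choose 4) ≤ b1)
    (h2 : ∀ i k : Fin n, bet ((lastS a i k).card.choose 4) ≤ b2) :
    av (EE n) (fun H => (Z a H) ^ r)
      ≤ ((prs n a).card : ℝ) ^ r * b1 ^ r + (2 * r ^ 2 * (n * (n * n) ^ (r - 1)) : ℕ) * b2 ^ r := by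
  have hexp : ∀ H : Finset (Finset (Fin n)), (Z a H) ^ r
      = ∑ p ∈ Fintype.piFinset (fun _ : Fin r => prs n a), ∏ s, z a (p s).1 (p s).2 H := by
    intro H
    have h0 := Finset.prod_univ_sum (fun _ : Fin r => prs n a) (fun _ p => z a p.1 p.2 H)
    rw [Finset.prod_const, Finset.card_univ, Fintype.card_fin] at h0
    exact h0
  have h3 : av (EE n) (fun H => (Z a H) ^ r)
      = ∑ p ∈ Fintype.piFinset (fun _ : Fin r => prs n a),
          av (EE n) (fun H => ∏ s, z a (p s).1 (p s).2 H) := by
    rw [← av_sum]
    apply av_congr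
    intro H _
    exact hexp H
  rw [h3, ← Finset.sum_filter_add_sum_filter_not _ (fun p => good p)]
  apply add_le_add
  · have h4 : ∀ p ∈ (Fintype.piFinset (fun _ : Fin r => prs n a)).filter (fun p => good p),
        av (EE n) (fun H => ∏ s, z a (p s).1 (p s).2 H) ≤ b1 ^ r := by
      intro p hp
      rw [Finset.mem_filter, Fintype.mem_piFinset] at hp
      exact (good_bound a p hp.1 hp.2).trans (pow_le_pow_left₀ (bet_nonneg _) (h1 p) r)
    refine (Finset.sum_le_card_nsmul _ _ _ h4).trans ?_
    rw [nsmul_eq_mul]
    apply mul_le_mul_of_nonneg_right _ (pow_nonneg hb1 r)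
    have h5 : ((Fintype.piFinset (fun _ : Fin r => prs n a)).filter (fun p => good p)).card
        ≤ (prs n a).card ^ r := by
      refine (Finset.card_filter_le _ _).trans ?_
      rw [Fintype.card_piFinset, Finset.prod_const, Finset.card_univ, Fintype.card_fin]
    exact_mod_cast h5
  · have h4 : ∀ p ∈ (Fintype.piFinset (fun _ : Fin r => prs n a)).filter (fun p => ¬ good p),
        av (EE n) (fun H => ∏ s, z a (p s).1 (p s).2 H) ≤ b2 ^ r := by
      intro p hp
      rw [Finset.mem_filter, Fintype.mem_piFinset] at hp
      apply av_le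
      intro H _
      calc ∏ s, z a (p s).1 (p s).2 H ≤ ∏ _s : Fin r, b2 := by
            apply Finset.prod_le_prod
            · intro s _; exact z_nonneg _ _ _ _
            · intro s _
              have := hp.1 s
              unfold prs at this
              simp only [Finset.mem_filter, Finset.mem_univ, true_and] at this
              exact (z_le a _ _ this.1 this.2 H).trans (h2 _ _)
        _ = b2 ^ r := by simp
    refine (Finset.sum_le_card_nsmul _ _ _ h4).trans ?_
    rw [nsmul_eq_mul]
    apply mul_le_mul_of_nonneg_right _ (pow_nonneg hb2 r)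
    have h5 : ((Fintype.piFinset (fun _ : Fin r => prs n a)).filter (fun p => ¬ good p)).card
        ≤ 2 * r ^ 2 * (n * (n * n) ^ (r - 1)) := by
      refine le_trans (Finset.card_le_card ?_) card_bad
      exact Finset.filter_subset_filter _ (Finset.subset_univ _)
    exact_mod_cast h5

/-- main inequality -/
lemma main_ineq (a r : ℕ) (ha : a ≤ n) :
    (1/2 : ℝ) * av (EE n) (A a) - (1/2) * (2 ^ r * av (EE n) (fun H => (Z a H) ^ r))
      ≤ av (EE n) (A n) := by
  rw [← av_res (inner n a) (EE n) (A n), ← av_mul_left, ← av_mul_left, ← av_mul_left, ← av_sub]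
  apply av_mono
  intro H _
  have hinv : ∀ H', A a (res (inner n a) H H') = A a H := by
    intro H'
    apply A_congr
    intro i hi
    apply deg_res_notMem
    intro e he hie
    unfold inner at he
    have := (Finset.mem_filter.1 he).2 i hie
    omega
  have hpt : ∀ G : Finset (Finset (Fin n)),
      A a G - ∑ p ∈ prs n a, A a G * ind p.1 p.2 G ≤ A n G := by
    intro G
    by_cases h1 : ∀ i j : Fin n, i.val < a → j.val < a → deg i G = deg j G → i = j
    · have hA : A a G = 1 := by unfold A; rw [if_pos h1]
      rw [hA]
      by_cases h2 : ∃ p ∈ prs n a, deg p.1 G = deg p.2 G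
      · obtain ⟨p, hp, he⟩ := h2
        have : (1:ℝ) ≤ ∑ p ∈ prs n a, 1 * ind p.1 p.2 G := by
          calc (1:ℝ) = 1 * ind p.1 p.2 G := by unfold ind; rw [if_pos he]; ring
            _ ≤ _ := by
              apply Finset.single_le_sum (f := fun p : Fin n × Fin n => 1 * ind p.1 p.2 G) _ hp
              intro q _
              have := ind_nonneg q.1 q.2 G
              linarith
        have := A_nonneg n G
        linarith
      · push Not at h2
        have hA1 : A n G = 1 := by
          unfold A
          rw [if_pos]
          intro i j hi hj he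
          by_contra hne
          by_cases hj' : a ≤ j.val
          · exact h2 (i, j) (by simp [prs, hj', hne]) he
          · by_cases hi' : a ≤ i.val
            · exact h2 (j, i) (by simp [prs, hi', Ne.symm hne]) he.symm
            · exact hne (h1 i j (by omega) (by omega) he)
        rw [hA1]
        have : (0:ℝ) ≤ ∑ p ∈ prs n a, 1 * ind p.1 p.2 G := by
          apply Finset.sum_nonneg
          intro q _
          have := ind_nonneg q.1 q.2 G
          linarith
        linarith
    · have hA : A a G = 0 := by unfold A; rw [if_neg h1]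
      rw [hA]
      have := A_nonneg n G
      simp only [zero_mul, Finset.sum_const_zero, sub_zero]
      exact this
  have h5 : A a H * (1 - Z a H) ≤ av (EE n) (fun H' => A n (res (inner n a) H H')) := by
    calc A a H * (1 - Z a H)
        = A a H - ∑ p ∈ prs n a, A a H * z a p.1 p.2 H := by
          unfold Z; rw [← Finset.mul_sum]; ring
      _ = av (EE n) (fun H' => A a (res (inner n a) H H')
            - ∑ p ∈ prs n a, A a (res (inner n a) H H') * ind p.1 p.2 (res (inner n a) H H')) := by
          rw [av_sub (EE n) (fun H' => A a (res (inner n a) H H')), av_sum]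
          congr 1
          · rw [av_congr (g := fun _ => A a H) (fun H' _ => hinv H'), av_const]
          · apply Finset.sum_congr rfl
            intro p _
            unfold z
            rw [← av_mul_left]
            apply av_congr
            intro H' _
            rw [hinv]
      _ ≤ _ := av_mono (fun H' _ => hpt _)
  have h6 : 0 ≤ av (EE n) (fun H' => A n (res (inner n a) H H')) :=
    av_nonneg (fun _ _ => A_nonneg _ _)
  have hZ := Z_nonneg a H
  have hp : (2:ℝ) ^ r * (Z a H) ^ r = (2 * Z a H) ^ r := (mul_pow _ _ _).symm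
  rw [hp]
  rcases (show A a H = 0 ∨ A a H = 1 by unfold A; split_ifs <;> simp) with h0 | h0
  · rw [h0]
    have : 0 ≤ (2 * Z a H) ^ r := by positivity
    linarith
  · rw [h0] at h5 ⊢
    by_cases hz : Z a H ≤ 1 / 2
    · have : 0 ≤ (2 * Z a H) ^ r := by positivity
      linarith
    · push Not at hz
      have : (1:ℝ) ≤ (2 * Z a H) ^ r := one_le_pow₀ (by linarith)
      linarith

end Pool.Agent.TH641.Irr
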