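import Mathlib
import Pool.Agent.TH641.Irr.Moment

set_option autoImplicit false
open Finset

namespace Pool.Agent.TH641.Irr

variable {n : ℕ}

lemma A_lower (a : ℕ) (ha : a ≤ n) (ε : ℝ) (hε : ε ≤ 1)
    (h : ∀ k < a, (k:ℝ) * bet ((n - 1 - k).choose 4) ≤ ε) :
    (1 - ε) ^ a ≤ av (EE n) (A a) := by
  have key : ∀ k ≤ a, (1 - ε) ^ k ≤ av (EE n) (A k) := by
    intro k
    induction k with
    | zero =>
      intro _
      rw [pow_zero, av_congr (g := fun _ => (1:ℝ)) (fun H _ => A_zero H), av_const]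
    | succ k ih =>
      intro hk
      have h1 := ih (by omega)
      have h2 := A_step (n := n) k (by omega)
      have h3 := h k (by omega)
      have h4 : 0 ≤ av (EE n) (A k) := av_nonneg (fun H _ => A_nonneg k H)
      calc (1 - ε) ^ (k + 1) = (1 - ε) * (1 - ε) ^ k := by ring
        _ ≤ (1 - ε) * av (EE n) (A k) := by
            apply mul_le_mul_of_nonneg_left h1; linarith
        _ ≤ (1 - k * bet ((n - 1 - k).choose 4)) * av (EE n) (A k) := by
            apply mul_le_mul_of_nonneg_right _ h4; linarith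
        _ ≤ _ := h2
  exact key a le_rfl

lemma bet_le_choose {x X : ℕ} (hx : 4 ≤ x) (hX : x.choose 4 ≤ X) :
    bet X ≤ 5 / ((x:ℝ) - 3) ^ 2 := by
  have hx' : (4:ℝ) ≤ x := by exact_mod_cast hx
  have h1 := Nat.pow_le_choose (α := ℝ) 4 x
  have h2 : ((x + 1 - 4 : ℕ) : ℝ) = (x:ℝ) - 3 := by
    rw [Nat.cast_sub (by omega)]; push_cast; ring
  rw [h2] at h1
  have h3 : ((Nat.factorial 4 : ℕ) : ℝ) = 24 := by norm_num [Nat.factorial]
  have hX' : ((x.choose 4 : ℕ) : ℝ) ≤ X := by exact_mod_cast hX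
  have h4 : ((x:ℝ) - 3) ^ 4 ≤ 24 * (X:ℝ) := by
    rw [h3] at h1
    linarith
  have hpos : (0:ℝ) < ((x:ℝ) - 3) ^ 2 / 5 := by
    apply div_pos _ (by norm_num)
    apply pow_pos; linarith
  have h5 := bet_le_of (t := X) hpos (by
    have : (((x:ℝ) - 3) ^ 2 / 5) ^ 2 = ((x:ℝ) - 3) ^ 4 / 25 := by ring
    rw [this]
    have : (0:ℝ) ≤ X := Nat.cast_nonneg _
    linarith)
  rwa [one_div_div] at h5

lemma card_last (a : ℕ) (ha : a ≤ n) :
    (Finset.univ.filter (fun j : Fin n => a ≤ j.val)).card = n - a := by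
  have h1 := Finset.card_filter_add_card_filter_not (s := (Finset.univ : Finset (Fin n)))
    (fun j : Fin n => j.val < a)
  have h2 : (Finset.univ.filter (fun j : Fin n => j.val < a)).card = a := by
    rw [Fin.card_filter_val_lt]; exact min_eq_right ha
  have h3 : (Finset.univ.filter (fun j : Fin n => ¬ j.val < a))
      = (Finset.univ.filter (fun j : Fin n => a ≤ j.val)) := by
    ext j; simp
  rw [h3, h2] at h1
  simp only [Finset.card_univ, Fintype.card_fin] at h1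
  omega

lemma lastS_card (a : ℕ) (ha : a ≤ n) (i k : Fin n) : n - a - 2 ≤ (lastS a i k).card := by
  unfold lastS
  have h1 := Finset.pred_card_le_card_erase
    (s := (Finset.univ.filter (fun j : Fin n => a ≤ j.val)).erase i) (a := k)
  have h2 := Finset.pred_card_le_card_erase
    (s := (Finset.univ.filter (fun j : Fin n => a ≤ j.val))) (a := i)
  rw [card_last a ha] at h2
  omega

lemma prs_card (a : ℕ) (ha : a ≤ n) : (prs n a).card ≤ n * (n - a) := by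
  have : prs n a ⊆ (Finset.univ : Finset (Fin n)) ×ˢ
      (Finset.univ.filter (fun j : Fin n => a ≤ j.val)) := by
    intro p hp
    unfold prs at hp
    simp only [Finset.mem_filter, Finset.mem_univ, true_and] at hp
    simp [hp.1]
  refine (Finset.card_le_card this).trans ?_
  rw [Finset.card_product, card_last a ha]
  simp

lemma exp_lower {x : ℝ} (h0 : 0 ≤ x) (h1 : x ≤ 1/2) : Real.exp (-(2 * x)) ≤ 1 - x := by
  have h2 : (1 - x)⁻¹ ≤ Real.exp (2 * x) := by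
    have h3 := Real.add_one_le_exp (2 * x)
    refine le_trans ?_ h3
    rw [inv_le_comm₀ (by linarith) (by linarith)]
    rw [inv_le_comm₀ (by linarith) (by linarith)]
    rw [inv_le_iff_one_le_mul₀ (by linarith)]
    nlinarith
  rw [Real.exp_neg]
  rw [inv_le_comm₀ (Real.exp_pos _) (by linarith)]
  exact h2

theorem main_av : ∃ c : ℝ, 0 < c ∧ ∃ N : ℕ, ∀ n : ℕ, N ≤ n → c ≤ av (EE n) (A (n := n) n) := by
  obtain ⟨q, hq⟩ : ∃ q : ℝ, q = 640 := ⟨_, rfl⟩
  obtain ⟨K, hK⟩ : ∃ K : ℝ, K = 20 * q ^ 2 := ⟨_, rfl⟩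
  have hqpos : 0 < q := by rw [hq]; norm_num
  have hKpos : 0 < K := by rw [hK]; positivity
  obtain ⟨L, hL⟩ : ∃ L : ℝ, L = Real.exp (-(2 * K)) := ⟨_, rfl⟩
  have hLpos : 0 < L := by rw [hL]; exact Real.exp_pos _
  obtain ⟨r, hr⟩ : ∃ r : ℕ, ((1:ℝ)/4) ^ r < L / 4 :=
    exists_pow_lt_of_lt_one (by positivity) (by norm_num)
  -- make r ≥ 1
  obtain ⟨r, hr1, hr⟩ : ∃ r : ℕ, 1 ≤ r ∧ ((1:ℝ)/4) ^ r < L / 4 := by
    refine ⟨r + 1, by omega, lt_of_le_of_lt ?_ hr⟩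
    rw [pow_succ]
    have : (0:ℝ) ≤ (1/4) ^ r := by positivity
    linarith
  obtain ⟨W, hW⟩ : ∃ W : ℝ, W = 2 ^ r * (2 * (r:ℝ) ^ 2) * K ^ r * 4 / L := ⟨_, rfl⟩
  obtain ⟨N1, hN1⟩ := exists_nat_ge W
  obtain ⟨N2, hN2⟩ := exists_nat_ge (2 * K)
  refine ⟨L / 4, by positivity, N1 + N2 + 12 * 640 + 4 * r + 100, ?_⟩
  intro n hn
  obtain ⟨m, hm⟩ : ∃ m : ℕ, m = n / 640 := ⟨_, rfl⟩
  have hmn : m ≤ n := by rw [hm]; exact Nat.div_le_self _ _
  obtain ⟨a, ha⟩ : ∃ a : ℕ, a = n - m := ⟨_, rfl⟩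
  have han : a ≤ n := by omega
  have hnam : n - a = m := by omega
  have hnR : (N1:ℝ) + N2 + 12 * 640 + 4 * r + 100 ≤ n := by exact_mod_cast hn
  have hN1' : (0:ℝ) ≤ N1 := Nat.cast_nonneg _
  have hN2' : (0:ℝ) ≤ N2 := Nat.cast_nonneg _
  have hr0 : (0:ℝ) ≤ r := Nat.cast_nonneg _
  have hnpos : (0:ℝ) < n := by linarith
  have hm1 : (m:ℝ) ≤ n / q := by
    rw [hm, hq]; exact_mod_cast Nat.cast_div_le (α := ℝ)
  have hm2 : (n:ℝ) / q - 1 ≤ m := by
    have h1 : n < 640 * (m + 1) := by rw [hm]; exact Nat.lt_mul_div_succ n (by norm_num)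
    have h2 : (n:ℝ) < 640 * ((m:ℝ) + 1) := by exact_mod_cast h1
    rw [hq, sub_le_iff_le_add, div_le_iff₀ (by norm_num)]
    linarith
  have hn12 : 12 * q ≤ n := by rw [hq]; linarith
  have hnq : 6 ≤ (n:ℝ) / (2 * q) := by
    rw [le_div_iff₀ (by positivity)]; linarith
  have hnq2 : (n:ℝ) / q = n / (2 * q) + n / (2 * q) := by field_simp; ring
  have hm5 : (n:ℝ) / (2 * q) ≤ (m:ℝ) - 5 := by linarith
  have hm3 : (n:ℝ) / (2 * q) ≤ (m:ℝ) - 3 := by linarith
  have hmnat : 11 ≤ m := by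
    have : (11:ℝ) ≤ m := by linarith
    exact_mod_cast this
  have hbnd : ∀ y : ℝ, (n:ℝ) / (2 * q) ≤ y → 5 / y ^ 2 ≤ K / (n:ℝ) ^ 2 := by
    intro y hy
    have hpos : 0 < (n:ℝ) / (2 * q) := by positivity
    have h1 : ((n:ℝ) / (2 * q)) ^ 2 ≤ y ^ 2 := pow_le_pow_left₀ hpos.le hy 2
    have h2 : 5 / y ^ 2 ≤ 5 / ((n:ℝ) / (2 * q)) ^ 2 :=
      div_le_div_of_nonneg_left (by norm_num) (by positivity) h1
    refine h2.trans (le_of_eq ?_)
    rw [hK]; field_simp; ring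
  -- (1)
  have e1 : ∀ k < a, (k:ℝ) * bet ((n - 1 - k).choose 4) ≤ K / n := by
    intro k hk
    have h1 : bet ((n - 1 - k).choose 4) ≤ 5 / ((m:ℝ) - 3) ^ 2 := by
      apply bet_le_choose (by omega)
      apply Nat.choose_le_choose
      omega
    have h2 := h1.trans (hbnd _ hm3)
    have hkn : (k:ℝ) ≤ n := by exact_mod_cast (by omega : k ≤ n)
    calc (k:ℝ) * bet ((n - 1 - k).choose 4) ≤ n * (K / (n:ℝ) ^ 2) :=
          mul_le_mul hkn h2 (bet_nonneg _) hnpos.le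
      _ = K / n := by field_simp
  have hε : K / n ≤ 1 / 2 := by
    rw [div_le_iff₀ hnpos]
    linarith
  have hε0 : 0 ≤ K / n := by positivity
  have hA : L ≤ av (EE n) (A (n := n) a) := by
    refine le_trans ?_ (A_lower a han (K / n) (by linarith) e1)
    have h1 := exp_lower hε0 hε
    calc L = Real.exp (-(2 * (K / n))) ^ n := by
          rw [hL, ← Real.exp_nat_mul]; congr 1; field_simp
      _ ≤ Real.exp (-(2 * (K / n))) ^ a := by
          apply pow_le_pow_of_le_one (Real.exp_pos _).le _ han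
          rw [Real.exp_le_one_iff]; linarith
      _ ≤ (1 - K / n) ^ a := pow_le_pow_left₀ (Real.exp_pos _).le h1 a
  -- (2)
  have e2 : ∀ i k : Fin n, bet ((lastS a i k).card.choose 4) ≤ K / (n:ℝ) ^ 2 := by
    intro i k
    have h1 : bet ((lastS a i k).card.choose 4) ≤ 5 / (((m - 2 : ℕ) : ℝ) - 3) ^ 2 := by
      apply bet_le_choose (by omega)
      apply Nat.choose_le_choose
      have := lastS_card a han i k
      omega
    refine h1.trans (hbnd _ ?_)
    rw [Nat.cast_sub (by omega)]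
    push_cast
    linarith
  -- (3)
  have haR : (n:ℝ) / 2 ≤ a := by
    have h1 : (a:ℝ) = n - m := by rw [ha, Nat.cast_sub hmn]
    rw [h1]
    have h2 : (n:ℝ) / q ≤ n / 2 := by
      apply div_le_div_of_nonneg_left hnpos.le (by norm_num)
      rw [hq]; norm_num
    linarith
  have hra : r + 4 ≤ a := by
    have : ((r + 4 : ℕ):ℝ) ≤ a := by push_cast; linarith
    exact_mod_cast this
  have e3 : ∀ p : Fin r → Fin n × Fin n, bet ((firstS a p).card.choose 4) ≤ 80 / (n:ℝ) ^ 2 := by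
    intro p
    have h1 : bet ((firstS a p).card.choose 4) ≤ 5 / (((a - r : ℕ) : ℝ) - 3) ^ 2 := by
      apply bet_le_choose (by omega)
      apply Nat.choose_le_choose
      exact firstS_card a han p
    refine h1.trans ?_
    rw [Nat.cast_sub (by omega)]
    have h2 : (n:ℝ) / 4 ≤ (a:ℝ) - r - 3 := by linarith
    have h3 : ((n:ℝ) / 4) ^ 2 ≤ ((a:ℝ) - r - 3) ^ 2 := pow_le_pow_left₀ (by positivity) h2 2
    have h4 : 5 / ((a:ℝ) - r - 3) ^ 2 ≤ 5 / ((n:ℝ) / 4) ^ 2 :=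
      div_le_div_of_nonneg_left (by norm_num) (by positivity) h3
    refine h4.trans (le_of_eq ?_)
    field_simp; ring
  have hmom := moment_bound (n := n) a r (80 / (n:ℝ) ^ 2) (K / (n:ℝ) ^ 2) (by positivity)
    (by positivity) e3 e2
  have hprs : ((prs n a).card : ℝ) ≤ (n:ℝ) ^ 2 / q := by
    have h1 := prs_card a han
    rw [hnam] at h1
    have h2 : ((prs n a).card : ℝ) ≤ n * m := by exact_mod_cast h1
    calc ((prs n a).card : ℝ) ≤ n * m := h2
      _ ≤ n * (n / q) := mul_le_mul_of_nonneg_left hm1 hnpos.le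
      _ = _ := by ring
  have t1 : 2 ^ r * (((prs n a).card : ℝ) ^ r * (80 / (n:ℝ) ^ 2) ^ r) ≤ L / 4 := by
    calc 2 ^ r * (((prs n a).card : ℝ) ^ r * (80 / (n:ℝ) ^ 2) ^ r)
        = (2 * ((prs n a).card * (80 / (n:ℝ) ^ 2))) ^ r := by rw [← mul_pow, ← mul_pow]
      _ ≤ (2 * ((n:ℝ) ^ 2 / q * (80 / (n:ℝ) ^ 2))) ^ r := by
          apply pow_le_pow_left₀ (by positivity)
          apply mul_le_mul_of_nonneg_left _ (by norm_num)
          apply mul_le_mul_of_nonneg_right hprs (by positivity)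
      _ = (1 / 4) ^ r := by
          congr 1
          rw [hq]; field_simp; norm_num
      _ ≤ L / 4 := hr.le
  have t2 : 2 ^ r * (((2 * r ^ 2 * (n * (n * n) ^ (r - 1)) : ℕ) : ℝ) * (K / (n:ℝ) ^ 2) ^ r)
      ≤ L / 4 := by
    have h1 : ((2 * r ^ 2 * (n * (n * n) ^ (r - 1)) : ℕ) : ℝ)
        = 2 * (r:ℝ) ^ 2 * ((n:ℝ) ^ (2 * r) / n) := by
      push_cast
      have : (n:ℝ) ^ (2 * r) = n * (n * ((n:ℝ) * n) ^ (r - 1)) := by
        obtain ⟨s, rfl⟩ : ∃ s, r = s + 1 := ⟨r - 1, by omega⟩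
        simp only [Nat.add_sub_cancel]
        rw [pow_mul, pow_succ]; ring
      rw [this]; field_simp
    rw [h1, div_pow, ← pow_mul]
    have h2 : 2 ^ r * (2 * (r:ℝ) ^ 2 * ((n:ℝ) ^ (2 * r) / n) * (K ^ r / (n:ℝ) ^ (2 * r)))
        = (2 ^ r * (2 * (r:ℝ) ^ 2) * K ^ r) / n := by
      field_simp
    rw [h2, div_le_iff₀ hnpos]
    have h3 : W ≤ n := by linarith
    rw [hW, div_le_iff₀ hLpos] at h3
    linarith
  have hfin := main_ineq (n := n) a r han
  have hm0 : 2 ^ r * av (EE n) (fun H => (Z a H) ^ r) ≤ L / 4 + L / 4 := by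
    calc 2 ^ r * av (EE n) (fun H => (Z a H) ^ r)
        ≤ 2 ^ r * (((prs n a).card : ℝ) ^ r * (80 / (n:ℝ) ^ 2) ^ r
            + ((2 * r ^ 2 * (n * (n * n) ^ (r - 1)) : ℕ) : ℝ) * (K / (n:ℝ) ^ 2) ^ r) :=
          mul_le_mul_of_nonneg_left hmom (by positivity)
      _ = 2 ^ r * (((prs n a).card : ℝ) ^ r * (80 / (n:ℝ) ^ 2) ^ r)
            + 2 ^ r * (((2 * r ^ 2 * (n * (n * n) ^ (r - 1)) : ℕ) : ℝ)
              * (K / (n:ℝ) ^ 2) ^ r) := by ring
      _ ≤ _ := add_le_add t1 t2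
  linarith

end Pool.Agent.TH641.Irr
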